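import Pool.Agent.H10.AQ.Main

/-!
# Goldbach's problem for the aliquot sums and the cototients of 99.9 per cent of the even integers

Let `s(m) = σ(m) - m` be the sum of the proper divisors. For at least 99.9 per cent of all even integers `m` both `s(m)` and
`m - φ(m)` are sums of two different primes (so the system of the problem is solvable for `s(m) / 2` and `(m - φ(m)) / 2`),
and every window contains at least an eighth of the number of representations predicted by Hardy and Littlewood. The same is
true for the values of all linear combinations `α m + β f(m)`, `f` a multiplicative function of moderate growth with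
`f(p) = p + c`, `c ≠ 0`, at almost all `m` with a prime factor `≥ m^(1/5 + ρ)`.

Proof: write `m = k p` with the large prime factor `p`; the value is `A p + B` with `A = α k + β f(k)`, `B = β c f(k)`. The
theorem on Goldbach representations in the residue classes of every modulus up to `x^(4/5 - ρ)` is applied to the class of
`B` modulo `A`, for every `k`. That fewer than one of a thousand integers has no prime factor `≥ m^(1/5 + ρ)` follows from a
discrete form of the integral equation of Dickman's function.
-/

set_option autoImplicit false

namespace Pool.Agent.Results.MP_967f73_nt.AliquotSumsFifthRoot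

open Finset
open Pool.Agent.H10.AQ

open Classical in
/-- Let `f` be a positive multiplicative function of moderate growth with `f p = p + c`, `c ≠ 0`, for all large primes, and
let `α`, `β` be nonzero integers. For almost all `m` with a prime factor `≥ m^(1/5 + ρ)` the number `α m + β f m`, if it is
even and `≥ m / (log m)^C`, is a sum of two different primes and has in every window at least an eighth of the predicted
number of representations. For at least 99.9 per cent of the even `m` this is so for the sum of the proper divisors of `m` and
for `m - φ(m)`. -/
theorem result :
    (∀ (f : ℕ → ℕ) (c α β : ℤ) (C W : ℕ) (ρ : ℝ), Moderate f c → c ≠ 0 → α ≠ 0 → β ≠ 0 → 0 < ρ →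
      AlmostAll (fun m => LargePrime (1 / 5 + ρ) m → (m : ℝ) / Real.log m ^ C ≤ ((α * m + β * f m : ℤ) : ℝ) →
        Even (α * m + β * f m) → Good W (α * m + β * f m).toNat)) ∧
    ∀ W : ℕ, ∃ N₀ : ℕ, ∀ N : ℕ, N₀ ≤ N → 999 / 1000 * (N / 2 : ℝ) ≤
      (((Icc 1 N).filter (fun m => Even m ∧ Good W (aliquot m) ∧ Good W (m - Nat.totient m))).card : ℝ) :=
  final

end Pool.Agent.Results.MP_967f73_nt.AliquotSumsFifthRoot
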