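import Pool.Agent.H10.LN.Main

/-!
# Goldbach's problem for `α m + β v + B(m / v)` with an arbitrary function `B`, and for sums of prime factors

(1) Let `a_k v + b_k` (`k ∈ I`, `v` an integer) be any family of arithmetic progressions with ARBITRARY `b_k` and differences
`a_k ≤ x^(4/5 - ρ)`, no difference being used more than `(log x)^C` times. Up to at most `x / (log x)^A` exceptional pairs
`(k, v)` all even values in `(0, x]` are sums of two different primes, the system of the problem is solvable, and every window
contains at least an eighth of the predicted number of representations.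

(2) For an arbitrary function `B` and for all but `N / (log N)^A` of the `m ≤ N`: for ALL factorizations `m = k v` with
`v ≥ N^(1/5 + ρ)` the number `α m + β v + B(k)` has this property, if it is even and of admissible size; the bound for the
number of the exceptions is uniform in `B`.

(3) Let `S(m)` be the sum of the prime factors of `m` (with multiplicities). For at least 99.9 per cent of all integers `m` the
numbers `m + S(m)`, `m - S(m)` and all the `α m + β S(m)` with bounded coefficients have this property if they are even.

Proof: the theorem on the Goldbach representations in all residue classes of all moduli up to `x^(4/5 - ρ)` which are not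
divisible by one of few large integers; a discrete Dickman recursion for the integers without large prime factors.
-/

set_option autoImplicit false

namespace Pool.Agent.Results.MP_967f73_nt.ArbitraryIntercepts

open Finset
open Pool.Agent.H10.LN

open Classical in
/-- (1) Families of arithmetic progressions with arbitrary first members and almost distinct differences up to
`x^(4/5 - ρ)`; (2) all factorizations `m = k v` with a factor `v ≥ N^(1/5 + ρ)` and arbitrary functions `B` of the other
factor; (3) the sums of the prime factors. -/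
theorem result :
    (∀ (W : ℕ) (ρ : ℝ), 0 < ρ → ∀ A C : ℕ, ∃ x₀ : ℝ, ∀ x : ℝ, x₀ ≤ x →
      ∀ (I : Finset ℕ) (a : ℕ → ℕ) (b : ℕ → ℤ), (∀ k ∈ I, 1 ≤ a k ∧ (a k : ℝ) ≤ x ^ (4 / 5 - ρ)) →
        (∀ q : ℕ, ((I.filter (fun k => a k = q)).card : ℝ) ≤ Real.log x ^ C) →
        ∀ V : ℕ → Finset ℤ, (∀ k ∈ I, ∀ v ∈ V k, Bad x W ((a k : ℤ) * v + b k)) →
          ∑ k ∈ I, ((V k).card : ℝ) ≤ x / Real.log x ^ A) ∧
    (∀ (W : ℕ) (ρ : ℝ), 0 < ρ → ∀ (A C : ℕ) (α β : ℤ), 1 ≤ α → ∃ N₀ : ℕ, ∀ N : ℕ, N₀ ≤ N → ∀ B : ℕ → ℤ,
      ((exc W (1 / 5 + ρ) C α β B N).card : ℝ) ≤ N / Real.log N ^ A) ∧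
    ∀ R W : ℕ, ∃ N₀ : ℕ, ∀ N : ℕ, N₀ ≤ N → 999 / 1000 * (N : ℝ) ≤ ((sumGood R W N).card : ℝ) :=
  ⟨family, factor, sums⟩

end Pool.Agent.Results.MP_967f73_nt.ArbitraryIntercepts
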