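import Pool.Agent.H67.BB.Basis
import Pool.Agent.H67.BB.EulerGen

set_option autoImplicit false

/-!
# The zeros of all L-functions do not decide Goldbach's problem, nor the ternary problem, nor sums of any length

Let `f(p)` tend to infinity, as slowly as one wishes.  Every prime `p` is moved by at most `f(p)`, injectively, such
that for each `q` the residue modulo `q` changes for finitely many primes only.  The new primes can be chosen such
that for every `k` almost no integer is a sum of at most `k` of them: they are not an additive basis of any order,
not even for a set of positive density, while for the primes this is a theorem of Schnirelmann, and three primes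
suffice for the odd numbers by Vinogradov's theorem.  Nevertheless for every Dirichlet character the Euler product
over the new primes is the Dirichlet L-function times a factor which is holomorphic and without zeros in the half
plane `Re s > 0`: all zeros and poles with `Re s > 0` are the same.  The same holds for all Euler products with
coefficients of absolute value at most `1`, and so for the Artin L-functions and the tempered automorphic
L-functions (products of such products, with the parameters at `p` transported to the new prime `φ p`).  So no
information on these zeros (for instance the generalised Riemann hypothesis), together with the count of the primes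
in all progressions to fixed moduli up to an error `O(f(x))`, can give solutions of the system of the problem even for
a positive proportion of the `n`; it cannot even give Vinogradov's or Schnirelmann's theorem.

Proof.  The primes with `X j ≤ p < X (j + 1)` are moved into a Bohr set of integers `m` with a very small fractional part
of `m √2`, to composite numbers in the same class modulo `j!`; there is room for this in all intervals of a bounded
length, by the inequality of Brun and Titchmarsh and Hall's theorem.  The width of the Bohr set is chosen after
`X (j - 1)` and before `X j`, such that the sums of `j` elements of it have distances larger than `(X (j - 1)) ^ 2`.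
If one of the summands of `n ≤ x` is smaller than `X i`, the others form a shorter sum, and there are very few of these
for `x ≥ X (i + k)`, by induction.
-/

namespace Pool.Agent.Results.MP_967f73_nt.ZerosDoNotDecide

open Filter Topology

/-- Let `f ≥ 0` tend to infinity.  There is a map `φ` on the primes with values `≥ 2` such that
(1) `φ` is injective on the primes, `|φ p - p| ≤ f p` for all primes `p`, and for every `q ≥ 1`: `φ p ≡ p` modulo `q`
for all but finitely many primes `p`;
(2) for every Dirichlet character `χ` the Euler product over the `φ p` is `L(s, χ) G(s)` for `Re s > 1`, where `G` is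
holomorphic and without zeros in `Re s > 0`;
(3) for all coefficients `c p` with `|c p| ≤ 1` the product of the factors `(1 - c p (φ p) ^ (-s))⁻¹` is the product of the
factors `(1 - c p p ^ (-s))⁻¹` times `G(s)` for `Re s > 1`, where `G` is holomorphic and without zeros in `Re s > 0`;
(4) for every `k` the integers which are sums of at most `k` elements of the set of the values `φ p` have density
zero. -/
theorem result (f : ℕ → ℝ) (hf0 : ∀ n, 0 ≤ f n) (hf : Tendsto f atTop atTop) : ∃ φ : ℕ → ℕ,
    (Set.InjOn φ {p | p.Prime} ∧ (∀ p : ℕ, p.Prime → 2 ≤ φ p) ∧ (∀ p : ℕ, p.Prime → |(φ p : ℝ) - p| ≤ f p) ∧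
      ∀ q : ℕ, 0 < q → {p : ℕ | p.Prime ∧ ¬ φ p ≡ p [MOD q]}.Finite) ∧
    (∀ (q : ℕ) [NeZero q] (χ : DirichletCharacter ℂ q), ∃ G : ℂ → ℂ,
      DifferentiableOn ℂ G {s : ℂ | 0 < s.re} ∧ (∀ s : ℂ, 0 < s.re → G s ≠ 0) ∧
      ∀ s : ℂ, 1 < s.re → HasProd (fun p : Nat.Primes => (1 - χ (φ p) * (φ p : ℂ) ^ (-s))⁻¹)
        (χ.LFunction s * G s)) ∧
    (∀ c : ℕ → ℂ, (∀ n, ‖c n‖ ≤ 1) → ∃ G : ℂ → ℂ,
      DifferentiableOn ℂ G {s : ℂ | 0 < s.re} ∧ (∀ s : ℂ, 0 < s.re → G s ≠ 0) ∧
      ∀ s : ℂ, 1 < s.re → ∃ P : ℂ, HasProd (fun p : Nat.Primes => (1 - c p * ((p : ℕ) : ℂ) ^ (-s))⁻¹) P ∧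
        HasProd (fun p : Nat.Primes => (1 - c p * (φ p : ℂ) ^ (-s))⁻¹) (P * G s)) ∧
    ∀ k : ℕ, Tendsto (fun x : ℕ => ({n : ℕ | n ≤ x ∧ ∃ s : Multiset ℕ, s.card ≤ k ∧
      (∀ a ∈ s, a ∈ φ '' {p | p.Prime}) ∧ s.sum = n}.ncard : ℝ) / x) atTop (𝓝 0) := by
  obtain ⟨φ, X, hg, O⟩ := Pool.Agent.H67.BB.template3 Pool.Agent.H67.BB.TB Pool.Agent.H67.BB.TB_syn f hf0 hf
    (fun j x => 3 ^ ((j + 1) * (x + 1) ^ 2))
  exact ⟨φ, ⟨O.inj, O.move.two, O.dispf, O.move.fin⟩, fun q _ χ => Pool.Agent.H67.BB.euler2 O.move q χ,
    fun c hc => O.eulerGen c hc, fun k => O.sumsk hg k⟩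

end Pool.Agent.Results.MP_967f73_nt.ZerosDoNotDecide
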